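import Mathlib

/-!
# Subtractive closure and ideal products in `S₀[X, Y, Z]`

For a zerosumfree semiring `S₀`, the equality `scl(I) scl(J) = scl(IJ)` holds for all ideals `I, J`
of `S₀[X, Y, Z]` if and only if `1 + c = c` for some `c ∈ S₀` and every finite sum of products
of subtractive ideals of `S₀` is subtractive.
-/

open scoped TensorProduct
open MvPolynomial

set_option autoImplicit false

namespace Pool.Agent.Results.MP_05a6d5_al.Classification

universe u

section Basic

variable {H : Type*} [CommSemiring H]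

/-- The ideal `K` is subtractive. -/
def Subtractive (K : Ideal H) : Prop := ∀ x y : H, x ∈ K → x + y ∈ K → y ∈ K

/-- The subtractive closure: the smallest subtractive ideal containing `I`. -/
def scl (I : Ideal H) : Ideal H := sInf {K : Ideal H | I ≤ K ∧ Subtractive K}

theorem le_scl (I : Ideal H) : I ≤ scl I := le_sInf fun _ hK => hK.1

theorem scl_le {I K : Ideal H} (h : I ≤ K) (hK : Subtractive K) : scl I ≤ K := sInf_le ⟨h, hK⟩

theorem subtractive_scl (I : Ideal H) : Subtractive (scl I) := by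
  intro x y hx hxy
  rw [scl, Submodule.mem_sInf] at *
  exact fun K hK => hK.2 x y (hx K hK) (hxy K hK)

/-- `{x | x y ∈ K}`. -/
def colon (K : Ideal H) (y : H) : Ideal H where
  carrier := {x | x * y ∈ K}
  add_mem' := by
    intro a b ha hb
    simp only [Set.mem_ofPred_eq] at *
    rw [add_mul]
    exact K.add_mem ha hb
  zero_mem' := by
    simp
  smul_mem' := by
    intro c x hx
    simp only [Set.mem_ofPred_eq, smul_eq_mul] at *
    rw [mul_assoc]
    exact K.mul_mem_left c hx

theorem mem_colon {K : Ideal H} {x y : H} : x ∈ colon K y ↔ x * y ∈ K := Iff.rfl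

theorem subtractive_colon {K : Ideal H} (hK : Subtractive K) (y : H) : Subtractive (colon K y) := by
  intro a b ha hab
  rw [mem_colon] at *
  rw [add_mul] at hab
  exact hK _ _ ha hab

theorem scl_mul_le (I J : Ideal H) : scl I * scl J ≤ scl (I * J) := by
  have h1 : ∀ j ∈ J, ∀ x ∈ scl I, x * j ∈ scl (I * J) := by
    intro j hj
    have : scl I ≤ colon (scl (I * J)) j := by
      refine scl_le (fun i hi => ?_) (subtractive_colon (subtractive_scl _) _)
      rw [mem_colon]
      exact le_scl _ (Ideal.mul_mem_mul hi hj)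
    exact fun x hx => this hx
  rw [Ideal.mul_le]
  intro x hx y hy
  have : scl J ≤ colon (scl (I * J)) x := by
    refine scl_le (fun j hj => ?_) (subtractive_colon (subtractive_scl _) _)
    rw [mem_colon, mul_comm j x]
    exact h1 j hj x hx
  have := this hy
  rw [mem_colon, mul_comm y x] at this
  exact this

end Basic

section One

variable {S₀ : Type u} [CommSemiring S₀]

/-- The element `1` vanishes in the ring of differences `ℤ ⊗ S₀` only if `1 + c = c` for some `c`. -/
theorem exists_of_one (h : (Algebra.TensorProduct.includeRight : S₀ →ₐ[ℕ] ℤ ⊗[ℕ] S₀).toRingHom 1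
    = 0) : ∃ c : S₀, 1 + c = c := by
  let f : (ℤ ⊗[ℕ] S₀) →ₗ[ℕ] Algebra.GrothendieckAddGroup S₀ := TensorProduct.lift
    { toFun := fun n =>
        { toFun := fun s => n • Algebra.GrothendieckAddGroup.of s
          map_add' := fun x y => by rw [map_add, smul_add]
          map_smul' := fun m x => by
            rw [map_nsmul, RingHom.id_apply, smul_comm] }
      map_add' := fun x y => by
        ext s
        simp [add_smul]
      map_smul' := fun m x => by
        ext s
        simp [mul_smul] }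
  have h1 : f ((Algebra.TensorProduct.includeRight : S₀ →ₐ[ℕ] ℤ ⊗[ℕ] S₀).toRingHom 1)
      = (1 : ℤ) • Algebra.GrothendieckAddGroup.of (1 : S₀) := TensorProduct.lift.tmul _ _
  rw [h, map_zero, one_smul] at h1
  have h2 : Algebra.GrothendieckAddGroup.of (1 : S₀) = Algebra.GrothendieckAddGroup.of 0 := by
    rw [map_zero]; exact h1.symm
  obtain ⟨c, hc⟩ := (AddSubmonoid.LocalizationMap.eq_iff_exists
    (AddLocalization.addMonoidOf (⊤ : AddSubmonoid S₀))).1 h2
  exact ⟨c, by rw [add_comm, hc, add_zero]⟩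

variable {A : Type*} [CommRing A] (mk : S₀ →+* A)

/-- Evaluation at `X = Y = Z = -1`. -/
noncomputable def ev : MvPolynomial (Fin 3) S₀ →+* A := eval₂Hom mk (fun _ => -1)

variable (S₀) in
/-- The specialization `X = Y = Z`. -/
noncomputable def φ : MvPolynomial (Fin 3) S₀ →+* Polynomial S₀ :=
  eval₂Hom Polynomial.C (fun _ => Polynomial.X)

theorem ev_eq (p : MvPolynomial (Fin 3) S₀) :
    Polynomial.eval₂ mk (-1) (φ S₀ p) = ev mk p := by
  have : (Polynomial.eval₂RingHom mk (-1)).comp (φ S₀) = ev mk := by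
    apply MvPolynomial.ringHom_ext
    · intro r
      simp [φ, ev]
    · intro i
      simp [φ, ev]
  rw [← this]
  rfl

theorem sum_zero (hz : ∀ a b : S₀, a + b = 0 → a = 0 ∧ b = 0) {ι : Type*} (s : Finset ι)
    (f : ι → S₀) (h : ∑ i ∈ s, f i = 0) : ∀ i ∈ s, f i = 0 := by
  classical
  induction s using Finset.induction_on with
  | empty => simp
  | insert a s ha ih =>
    rw [Finset.sum_insert ha] at h
    obtain ⟨h1, h2⟩ := hz _ _ h
    intro i hi
    rcases Finset.mem_insert.1 hi with rfl | hi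
    · exact h1
    · exact ih h2 i hi

/-- The key property of the elements of the product ideal. -/
def Q (k : ℕ) (w : Polynomial S₀) : Prop :=
  (∀ n, n ≠ 0 → n ≠ 1 → n ≠ k → w.coeff n = 0) → mk (w.coeff 0) = 0

theorem Q_mul (hz : ∀ a b : S₀, a + b = 0 → a = 0 ∧ b = 0) (k : ℕ) (hk : 4 ≤ k) (hke : Even k)
    (U V : Polynomial S₀) (hU : Polynomial.eval₂ mk (-1) U = 0)
    (hV : Polynomial.eval₂ mk (-1) V = 0) : Q mk k (U * V) := by
  intro h
  have z : ∀ a b, a + b ≠ 0 → a + b ≠ 1 → a + b ≠ k →
      mk (U.coeff a) * mk (V.coeff b) = 0 := by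
    intro a b h0 h1 h2
    have := h _ h0 h1 h2
    rw [Polynomial.coeff_mul] at this
    have := sum_zero hz _ _ this (a, b) (by simp)
    simp only at this
    rw [← map_mul, this, map_zero]
  set N := max (max U.natDegree V.natDegree) k + 1 with hN
  have hU' : ∀ t : A, ∑ i ∈ Finset.range N, mk (U.coeff i) * t * (-1) ^ i = 0 := by
    intro t
    rw [Polynomial.eval₂_eq_sum_range' _ (n := N) (by omega)] at hU
    have := congrArg (· * t) hU
    simp only [zero_mul, Finset.sum_mul] at this
    rw [← this]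
    exact Finset.sum_congr rfl fun i _ => by ring
  have hV' : ∀ t : A, ∑ i ∈ Finset.range N, t * mk (V.coeff i) * (-1) ^ i = 0 := by
    intro t
    rw [Polynomial.eval₂_eq_sum_range' _ (n := N) (by omega)] at hV
    have := congrArg (t * ·) hV
    simp only [mul_zero, Finset.mul_sum] at this
    rw [← this]
    exact Finset.sum_congr rfl fun i _ => by ring
  have sub : ∀ (g : ℕ → A) (s : Finset ℕ), (∀ i ∈ s, i ≤ k) → (∀ i, i ∉ s → g i = 0) →
      ∑ i ∈ Finset.range N, g i = ∑ i ∈ s, g i := by
    intro g s hs hg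
    refine (Finset.sum_subset (fun i hi => ?_) (fun i _ hi => hg i hi)).symm
    have := hs i hi
    rw [Finset.mem_range]
    omega
  -- the four relations
  have e1 := hU' (mk (V.coeff 0))
  rw [sub _ {0, 1, k} (by simp; omega) (by
    intro i hi
    simp only [Finset.mem_insert, Finset.mem_singleton, not_or] at hi
    rw [z i 0 (by omega) (by omega) (by omega), zero_mul])] at e1
  rw [Finset.sum_insert (by simp; omega), Finset.sum_insert (by simp; omega),
    Finset.sum_singleton, hke.neg_one_pow] at e1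
  have e2 := hV' (mk (U.coeff k))
  rw [sub _ {0} (by simp) (by
    intro i hi
    simp only [Finset.mem_singleton] at hi
    rw [z k i (by omega) (by omega) (by omega), zero_mul])] at e2
  rw [Finset.sum_singleton] at e2
  have e3 := hV' (mk (U.coeff 1))
  rw [sub _ {0, k - 1} (by simp) (by
    intro i hi
    simp only [Finset.mem_insert, Finset.mem_singleton, not_or] at hi
    rw [z 1 i (by omega) (by omega) (by omega), zero_mul])] at e3
  rw [Finset.sum_insert (by simp; omega), Finset.sum_singleton] at e3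
  have e4 := hU' (mk (V.coeff (k - 1)))
  rw [sub _ {1} (by simp; omega) (by
    intro i hi
    simp only [Finset.mem_singleton] at hi
    by_cases h0 : i = 0
    · subst h0
      rw [z 0 (k - 1) (by omega) (by omega) (by omega), zero_mul]
    · rw [z i (k - 1) (by omega) (by omega) (by omega), zero_mul])] at e4
  rw [Finset.sum_singleton] at e4
  rw [Polynomial.mul_coeff_zero, map_mul]
  have e4' : mk (U.coeff 1) * mk (V.coeff (k - 1)) = 0 := by linear_combination -e4
  rw [e4'] at e3
  linear_combination e1 - e2 + e3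

theorem Q_mem (hz : ∀ a b : S₀, a + b = 0 → a = 0 ∧ b = 0) (k : ℕ) (hk : 4 ≤ k) (hke : Even k)
    (w : MvPolynomial (Fin 3) S₀)
    (hw : w ∈ scl (Ideal.span {(1 + X 0 : MvPolynomial (Fin 3) S₀)}) *
      scl (Ideal.span {(1 + X 0 : MvPolynomial (Fin 3) S₀)})) : Q mk k (φ S₀ w) := by
  have hev : ∀ p ∈ scl (Ideal.span {(1 + X 0 : MvPolynomial (Fin 3) S₀)}), ev mk p = 0 := by
    have : scl (Ideal.span {(1 + X 0 : MvPolynomial (Fin 3) S₀)}) ≤ RingHom.ker (ev mk) := by
      apply scl_le
      · rw [Ideal.span_le, Set.singleton_subset_iff, SetLike.mem_coe, RingHom.mem_ker]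
        simp [ev]
      · intro x y hx hxy
        rw [RingHom.mem_ker] at *
        rwa [map_add, hx, zero_add] at hxy
    exact fun p hp => this hp
  refine Submodule.mul_induction_on (C := fun w => Q mk k (φ S₀ w)) hw ?_ ?_
  · intro u hu v hv
    rw [map_mul]
    apply Q_mul mk hz k hk hke
    · rw [ev_eq, hev u hu]
    · rw [ev_eq, hev v hv]
  · intro x y hx hy h
    rw [map_add] at h ⊢
    have h' : ∀ n, n ≠ 0 → n ≠ 1 → n ≠ k → (φ S₀ x).coeff n = 0 ∧ (φ S₀ y).coeff n = 0 := by
      intro n h0 h1 h2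
      have := h n h0 h1 h2
      rw [Polynomial.coeff_add] at this
      exact hz _ _ this
    rw [Polynomial.coeff_add, map_add, hx fun n h0 h1 h2 => (h' n h0 h1 h2).1,
      hy fun n h0 h1 h2 => (h' n h0 h1 h2).2, add_zero]

theorem mk_one_eq_zero (hz : ∀ a b : S₀, a + b = 0 → a = 0 ∧ b = 0)
    (h : ∀ I J : Ideal (MvPolynomial (Fin 3) S₀), scl I * scl J = scl (I * J)) :
    mk 1 = 0 := by
  set x : MvPolynomial (Fin 3) S₀ := X 0 with hx
  have hm : ∀ p, p * ((1 + x) * (1 + x)) ∈ scl (Ideal.span {1 + x} * Ideal.span {1 + x}) :=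
    fun p => le_scl _ (Ideal.mul_mem_left _ _ (Ideal.mul_mem_mul
      (Ideal.mem_span_singleton_self _) (Ideal.mem_span_singleton_self _)))
  have hφ : φ S₀ x = Polynomial.X := by simp [φ, hx]
  have h4 : (3 + 4 * x + x ^ 4) ∈ scl (Ideal.span {1 + x} * Ideal.span {1 + x}) := by
    refine subtractive_scl _ (2 * x * ((1 + x) * (1 + x))) _ (hm _) ?_
    have e : 2 * x * ((1 + x) * (1 + x)) + (3 + 4 * x + x ^ 4)
        = (3 + x ^ 2) * ((1 + x) * (1 + x)) := by ring
    rw [e]
    exact hm _
  have h6 : (5 + 6 * x + x ^ 6) ∈ scl (Ideal.span {1 + x} * Ideal.span {1 + x}) := by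
    refine subtractive_scl _ ((4 * x + 2 * x ^ 3) * ((1 + x) * (1 + x))) _ (hm _) ?_
    have e : (4 * x + 2 * x ^ 3) * ((1 + x) * (1 + x)) + (5 + 6 * x + x ^ 6)
        = (5 + 3 * x ^ 2 + x ^ 4) * ((1 + x) * (1 + x)) := by ring
    rw [e]
    exact hm _
  rw [← h] at h4 h6
  have q4 := Q_mem mk hz 4 le_rfl (by decide) _ h4
  have q6 := Q_mem mk hz 6 (by norm_num) (by decide) _ h6
  have f4 : φ S₀ (3 + 4 * x + x ^ 4)
      = Polynomial.C 3 + Polynomial.C 4 * Polynomial.X + Polynomial.X ^ 4 := by
    simp only [map_add, map_mul, map_pow, map_ofNat, hφ]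
  have f6 : φ S₀ (5 + 6 * x + x ^ 6)
      = Polynomial.C 5 + Polynomial.C 6 * Polynomial.X + Polynomial.X ^ 6 := by
    simp only [map_add, map_mul, map_pow, map_ofNat, hφ]
  rw [f4] at q4
  rw [f6] at q6
  have r4 := q4 (by
    intro n h0 h1 h2
    rw [Polynomial.coeff_add, Polynomial.coeff_add, Polynomial.coeff_C, Polynomial.coeff_C_mul,
      Polynomial.coeff_X, Polynomial.coeff_X_pow, if_neg h0, if_neg (Ne.symm h1), if_neg h2]
    simp)
  have r6 := q6 (by
    intro n h0 h1 h2
    rw [Polynomial.coeff_add, Polynomial.coeff_add, Polynomial.coeff_C, Polynomial.coeff_C_mul,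
      Polynomial.coeff_X, Polynomial.coeff_X_pow, if_neg h0, if_neg (Ne.symm h1), if_neg h2]
    simp)
  simp only [Polynomial.coeff_add, Polynomial.coeff_C, Polynomial.coeff_C_mul,
    Polynomial.coeff_X, Polynomial.coeff_X_pow] at r4 r6
  simp at r4 r6
  have m3 : mk (3 : S₀) = 3 := map_ofNat mk 3
  have m5 : mk (5 : S₀) = 5 := map_ofNat mk 5
  rw [m3] at r4
  rw [m5] at r6
  rw [map_one]
  linear_combination 2 * r4 - r6

theorem exists_infinity (hz : ∀ a b : S₀, a + b = 0 → a = 0 ∧ b = 0)
    (h : ∀ I J : Ideal (MvPolynomial (Fin 3) S₀), scl I * scl J = scl (I * J)) :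
    ∃ c : S₀, 1 + c = c :=
  exists_of_one (mk_one_eq_zero _ hz h)

end One

section Two

variable {S₀ : Type u} [CommSemiring S₀]

/-- The coefficients `s` with `s X^a ∈ K`. -/
def L (K : Ideal (MvPolynomial (Fin 3) S₀)) (a : Fin 3 →₀ ℕ) : Ideal S₀ where
  carrier := {s | monomial a s ∈ K}
  add_mem' := by
    intro x y hx hy
    simp only [Set.mem_ofPred_eq, map_add] at *
    exact K.add_mem hx hy
  zero_mem' := by simp
  smul_mem' := by
    intro c x hx
    simp only [Set.mem_ofPred_eq, smul_eq_mul] at *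
    rw [← C_mul_monomial]
    exact K.mul_mem_left _ hx

theorem mem_L {K : Ideal (MvPolynomial (Fin 3) S₀)} {a : Fin 3 →₀ ℕ} {s : S₀} : s ∈ L K a ↔ monomial a s ∈ K := Iff.rfl

theorem subtractive_L {K : Ideal (MvPolynomial (Fin 3) S₀)} (hK : Subtractive K) (a : Fin 3 →₀ ℕ) :
    Subtractive (L K a) := by
  intro x y hx hxy
  rw [mem_L] at *
  rw [map_add] at hxy
  exact hK _ _ hx hxy

theorem L_mono (K : Ideal (MvPolynomial (Fin 3) S₀)) (a e : Fin 3 →₀ ℕ) : L K a ≤ L K (e + a) := by
  intro s hs
  rw [mem_L] at *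
  have : monomial (e + a) s = monomial e 1 * monomial a s := by
    rw [monomial_mul, one_mul]
  rw [this]
  exact K.mul_mem_left _ hs

theorem coeff_mem_L {K : Ideal (MvPolynomial (Fin 3) S₀)} (hK : Subtractive K) {c : S₀} (hc : 1 + c = c) {p : MvPolynomial (Fin 3) S₀}
    (hp : p ∈ K) (a : Fin 3 →₀ ℕ) : coeff a p ∈ L K a := by
  classical
  rw [mem_L]
  refine hK (C c * p) _ (K.mul_mem_left _ hp) ?_
  have : C c * p + monomial a (coeff a p) = C c * p := by
    ext m
    rw [coeff_add, coeff_C_mul, coeff_monomial]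
    split_ifs with h
    · subst h
      rw [add_comm, ← one_add_mul, hc]
    · rw [add_zero]
  rw [this]
  exact K.mul_mem_left _ hp

/-- The sums of products. -/
noncomputable def KK (I J : Ideal (MvPolynomial (Fin 3) S₀)) (m : Fin 3 →₀ ℕ) : Ideal S₀ :=
  ∑ x ∈ Finset.HasAntidiagonal.antidiagonal m, L (scl I) x.1 * L (scl J) x.2

theorem le_KK (I J : Ideal (MvPolynomial (Fin 3) S₀)) (a b : Fin 3 →₀ ℕ) : L (scl I) a * L (scl J) b ≤ KK I J (a + b) := by
  rw [KK]
  exact Finset.single_le_sum (f := fun x : (Fin 3 →₀ ℕ) × (Fin 3 →₀ ℕ) =>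
    L (scl I) x.1 * L (scl J) x.2) (fun _ _ => bot_le) (a := (a, b)) (by simp)

theorem sum_le {ι : Type*} (s : Finset ι) (f : ι → Ideal S₀) (K : Ideal S₀)
    (h : ∀ i ∈ s, f i ≤ K) : ∑ i ∈ s, f i ≤ K := by
  classical
  induction s using Finset.induction_on with
  | empty => simp
  | insert a s ha ih =>
    rw [Finset.sum_insert ha]
    exact sup_le (h a (by simp)) (ih fun i hi => h i (by simp [hi]))

theorem KK_mono (I J : Ideal (MvPolynomial (Fin 3) S₀)) (e b : Fin 3 →₀ ℕ) : KK I J b ≤ KK I J (e + b) := by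
  refine sum_le _ _ _ fun x hx => ?_
  rw [Finset.HasAntidiagonal.mem_antidiagonal] at hx
  have h := le_KK I J (e + x.1) x.2
  rw [add_assoc, hx] at h
  exact (Ideal.mul_mono (L_mono _ _ _) le_rfl).trans h

/-- The polynomials with coefficients in `KK`. -/
noncomputable def NN (I J : Ideal (MvPolynomial (Fin 3) S₀)) : Ideal (MvPolynomial (Fin 3) S₀) where
  carrier := {p | ∀ m, coeff m p ∈ KK I J m}
  add_mem' := by
    intro p q hp hq m
    rw [coeff_add]
    exact (KK I J m).add_mem (hp m) (hq m)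
  zero_mem' := by
    intro m
    simp
  smul_mem' := by
    classical
    intro q p hp m
    rw [smul_eq_mul, coeff_mul]
    refine Ideal.sum_mem _ fun x hx => ?_
    rw [Finset.HasAntidiagonal.mem_antidiagonal] at hx
    have := KK_mono I J x.1 x.2 (hp x.2)
    rw [hx] at this
    exact Ideal.mul_mem_left _ _ this

theorem of_criterion {c : S₀} (hc : 1 + c = c)
    (h : ∀ (n : ℕ) (A B : Fin n → Ideal S₀), (∀ i, Subtractive (A i)) → (∀ i, Subtractive (B i)) →
      Subtractive (∑ i, A i * B i)) (I J : Ideal (MvPolynomial (Fin 3) S₀)) : scl I * scl J = scl (I * J) := by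
  classical
  refine le_antisymm (scl_mul_le I J) ?_
  have hKK : ∀ m, Subtractive (KK I J m) := by
    intro m
    have e : KK I J m = ∑ i : Fin (Finset.HasAntidiagonal.antidiagonal m).card,
        L (scl I) ((Finset.HasAntidiagonal.antidiagonal m).equivFin.symm i).1.1 *
          L (scl J) ((Finset.HasAntidiagonal.antidiagonal m).equivFin.symm i).1.2 := by
      rw [KK, ← Finset.sum_coe_sort]
      exact (Equiv.sum_comp (Finset.HasAntidiagonal.antidiagonal m).equivFin.symm
        (fun x : Finset.HasAntidiagonal.antidiagonal m => L (scl I) x.1.1 * L (scl J) x.1.2)).symm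
    rw [e]
    exact h _ _ _ (fun i => subtractive_L (subtractive_scl _) _)
      (fun i => subtractive_L (subtractive_scl _) _)
  have h1 : scl (I * J) ≤ NN I J := by
    apply scl_le
    · rw [Ideal.mul_le]
      intro i hi j hj m
      rw [coeff_mul]
      refine Ideal.sum_mem _ fun x hx => ?_
      rw [Finset.HasAntidiagonal.mem_antidiagonal] at hx
      rw [← hx]
      exact le_KK I J x.1 x.2 (Ideal.mul_mem_mul
        (coeff_mem_L (subtractive_scl _) hc (le_scl _ hi) _)
        (coeff_mem_L (subtractive_scl _) hc (le_scl _ hj) _))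
    · intro p q hp hpq m
      have := hpq m
      rw [coeff_add] at this
      exact hKK m _ _ (hp m) this
  refine h1.trans fun p hp => ?_
  rw [p.as_sum]
  refine Ideal.sum_mem _ fun m _ => ?_
  have : KK I J m ≤ L (scl I * scl J) m := by
    refine sum_le _ _ _ fun x hx => ?_
    rw [Finset.HasAntidiagonal.mem_antidiagonal] at hx
    rw [Ideal.mul_le]
    intro s hs t ht
    rw [mem_L, ← hx, ← monomial_mul]
    exact Ideal.mul_mem_mul hs ht
  exact this (hp m)

/-- The total degree of an exponent. -/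
def dg (a : Fin 3 →₀ ℕ) : ℕ := a 0 + a 1 + a 2

theorem dg_add (a b : Fin 3 →₀ ℕ) : dg (a + b) = dg a + dg b := by
  simp only [dg, Finsupp.add_apply]; omega

open Classical in
/-- The ideal `A i` at the exponent `e i` and `0` at the other exponents. -/
noncomputable def sel {n : ℕ} (e : Fin n → Fin 3 →₀ ℕ) (A : Fin n → Ideal S₀)
    (a : Fin 3 →₀ ℕ) : Ideal S₀ :=
  if h : ∃ i, a = e i then A h.choose else ⊥

theorem sel_eq {n : ℕ} {e : Fin n → Fin 3 →₀ ℕ} (he : Function.Injective e)
    (A : Fin n → Ideal S₀) (i : Fin n) : sel e A (e i) = A i := by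
  have h : ∃ j, e i = e j := ⟨i, rfl⟩
  rw [sel, dif_pos h]
  congr 1
  exact (he h.choose_spec).symm

theorem subtractive_sel {n : ℕ} {e : Fin n → Fin 3 →₀ ℕ} {A : Fin n → Ideal S₀}
    (hA : ∀ i, Subtractive (A i)) (a : Fin 3 →₀ ℕ) : Subtractive (sel e A a) := by
  rw [sel]
  split_ifs with h
  · exact hA _
  · intro x y hx hxy
    rw [Ideal.mem_bot] at *
    rwa [hx, zero_add] at hxy

/-- The polynomials of order at least `N` with components of degree `N` in the ideals `sel`. -/
def NI {n : ℕ} (N : ℕ) (e : Fin n → Fin 3 →₀ ℕ) (A : Fin n → Ideal S₀) : Ideal (MvPolynomial (Fin 3) S₀) where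
  carrier := {p | ∀ a, (dg a < N → coeff a p = 0) ∧ (dg a = N → coeff a p ∈ sel e A a)}
  add_mem' := by
    intro p q hp hq a
    rw [coeff_add]
    refine ⟨fun h => ?_, fun h => ?_⟩
    · rw [(hp a).1 h, (hq a).1 h, add_zero]
    · exact Ideal.add_mem _ ((hp a).2 h) ((hq a).2 h)
  zero_mem' := by
    intro a
    simp
  smul_mem' := by
    classical
    intro q p hp a
    rw [smul_eq_mul, coeff_mul]
    refine ⟨fun h => ?_, fun h => ?_⟩
    · refine Finset.sum_eq_zero fun x hx => ?_
      rw [Finset.HasAntidiagonal.mem_antidiagonal] at hx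
      have := dg_add x.1 x.2
      rw [hx] at this
      rw [(hp x.2).1 (by omega), mul_zero]
    · refine Ideal.sum_mem _ fun x hx => ?_
      rw [Finset.HasAntidiagonal.mem_antidiagonal] at hx
      have hd := dg_add x.1 x.2
      rw [hx] at hd
      by_cases h0 : dg x.1 = 0
      · have hx1 : x.1 = 0 := by
          ext i
          simp only [dg] at h0
          fin_cases i <;> simp <;> omega
        rw [hx1, zero_add] at hx
        rw [hx]
        exact Ideal.mul_mem_left _ _ ((hp a).2 h)
      · rw [(hp x.2).1 (by omega), mul_zero]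
        exact Ideal.zero_mem _

theorem scl_le_NI {n N : ℕ} {e : Fin n → Fin 3 →₀ ℕ} (he : Function.Injective e)
    (hN : ∀ i, dg (e i) = N) {A : Fin n → Ideal S₀} (hA : ∀ i, Subtractive (A i)) :
    scl (Ideal.span {p : MvPolynomial (Fin 3) S₀ | ∃ i, ∃ s ∈ A i, p = monomial (e i) s}) ≤ NI N e A := by
  classical
  apply scl_le
  · rw [Ideal.span_le]
    rintro p ⟨i, s, hs, rfl⟩ a
    rw [coeff_monomial]
    refine ⟨fun h => ?_, fun h => ?_⟩
    · rw [if_neg]
      rintro rfl
      have := hN i
      omega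
    · split_ifs with h1
      · subst h1
        rw [sel_eq he]
        exact hs
      · exact Ideal.zero_mem _
  · intro x y hx hxy a
    have h := hxy a
    rw [coeff_add] at h
    refine ⟨fun h1 => ?_, fun h1 => ?_⟩
    · have h2 := h.1 h1
      rwa [(hx a).1 h1, zero_add] at h2
    · exact subtractive_sel hA a _ _ ((hx a).2 h1) (h.2 h1)

/-- The exponent `(i, n - i, 0)`. -/
noncomputable def ex (a b : ℕ) : Fin 3 →₀ ℕ := Finsupp.equivFunOnFinite.symm ![a, b, 0]

theorem ex_add (a b c d : ℕ) : ex a b + ex c d = ex (a + c) (b + d) := by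
  ext i
  fin_cases i <;> simp [ex]

theorem dg_ex (a b : ℕ) : dg (ex a b) = a + b := by simp [dg, ex]

theorem ex_zero (a b : ℕ) : ex a b 0 = a := by simp [ex]

theorem criterion (h : ∀ I J : Ideal (MvPolynomial (Fin 3) S₀), scl I * scl J = scl (I * J)) (n : ℕ)
    (A B : Fin n → Ideal S₀) (hA : ∀ i, Subtractive (A i)) (hB : ∀ i, Subtractive (B i)) :
    Subtractive (∑ i, A i * B i) := by
  classical
  let e : Fin n → Fin 3 →₀ ℕ := fun i => ex i (n - i)
  let f : Fin n → Fin 3 →₀ ℕ := fun i => ex (n - i) i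
  have he : Function.Injective e := by
    intro i j hij
    have := congrArg (fun a : Fin 3 →₀ ℕ => a 0) hij
    simp only [e, ex_zero] at this
    exact Fin.ext this
  have hf : Function.Injective f := by
    intro i j hij
    have := congrArg (fun a : Fin 3 →₀ ℕ => a 0) hij
    simp only [f, ex_zero] at this
    exact Fin.ext (by omega)
  have hde : ∀ i, dg (e i) = n := fun i => by simp only [e, dg_ex]; omega
  have hdf : ∀ i, dg (f i) = n := fun i => by simp only [f, dg_ex]; omega
  have hef : ∀ i, e i + f i = ex n n := fun i => by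
    simp only [e, f, ex_add]
    congr 1 <;> omega
  set I : Ideal (MvPolynomial (Fin 3) S₀) := Ideal.span {p : MvPolynomial (Fin 3) S₀ | ∃ i, ∃ s ∈ A i, p = monomial (e i) s} with hI
  set J : Ideal (MvPolynomial (Fin 3) S₀) := Ideal.span {p : MvPolynomial (Fin 3) S₀ | ∃ i, ∃ s ∈ B i, p = monomial (f i) s} with hJ
  have h1 : ∑ i, A i * B i ≤ L (I * J) (ex n n) := by
    refine sum_le _ _ _ fun i _ => ?_
    rw [Ideal.mul_le]
    intro s hs t ht
    rw [mem_L, ← hef i, ← monomial_mul]
    exact Ideal.mul_mem_mul (Ideal.subset_span ⟨i, s, hs, rfl⟩)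
      (Ideal.subset_span ⟨i, t, ht, rfl⟩)
  have h2 : ∀ w ∈ scl I * scl J, coeff (ex n n) w ∈ ∑ i, A i * B i := by
    intro w hw
    refine Submodule.mul_induction_on (C := fun w => coeff (ex n n) w ∈ ∑ i, A i * B i) hw ?_ ?_
    · intro u hu v hv
      have hu' := scl_le_NI he hde hA hu
      have hv' := scl_le_NI hf hdf hB hv
      rw [coeff_mul]
      refine Ideal.sum_mem _ fun x hx => ?_
      rw [Finset.HasAntidiagonal.mem_antidiagonal] at hx
      have hd := dg_add x.1 x.2
      rw [hx, dg_ex] at hd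
      rcases lt_trichotomy (dg x.1) n with hlt | heq | hgt
      · rw [(hu' x.1).1 hlt, zero_mul]
        exact Ideal.zero_mem _
      · have ha := (hu' x.1).2 heq
        have hb := (hv' x.2).2 (by omega)
        by_cases c1 : ∃ i, x.1 = e i
        · obtain ⟨i, hi⟩ := c1
          have hx2 : x.2 = f i := by
            have := hef i
            rw [← hi, ← hx] at this
            exact (add_left_cancel this).symm
          rw [hi, sel_eq he] at ha
          rw [hx2, sel_eq hf] at hb
          rw [hi, hx2]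
          exact Finset.single_le_sum (f := fun i => A i * B i) (fun _ _ => bot_le)
            (Finset.mem_univ i) (Ideal.mul_mem_mul ha hb)
        · rw [sel, dif_neg c1, Ideal.mem_bot] at ha
          rw [ha, zero_mul]
          exact Ideal.zero_mem _
      · rw [(hv' x.2).1 (by omega), mul_zero]
        exact Ideal.zero_mem _
    · intro x y hx hy
      rw [coeff_add]
      exact Ideal.add_mem _ hx hy
  intro x y hx hxy
  have h3 : monomial (ex n n) y ∈ scl (I * J) := by
    refine subtractive_scl _ (monomial (ex n n) x) _ (le_scl _ (h1 hx)) ?_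
    rw [← map_add]
    exact le_scl _ (h1 hxy)
  rw [← h] at h3
  have := h2 _ h3
  rwa [coeff_monomial, if_pos rfl] at this

end Two

/-! ### The extended naturals -/

theorem enat_ideal (K : Ideal ℕ∞) (hK : Subtractive K) : K = ⊥ ∨ K = ⊤ := by
  by_cases h : ∃ a ∈ K, a ≠ 0
  · right
    obtain ⟨a, ha, h0⟩ := h
    have ht : (⊤ : ℕ∞) ∈ K := by
      have := K.mul_mem_left ⊤ ha
      rwa [ENat.top_mul h0] at this
    rw [eq_top_iff]
    intro x _
    exact hK ⊤ x ht (by rwa [top_add])
  · left
    push Not at h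
    rw [eq_bot_iff]
    exact fun a ha => by rw [Ideal.mem_bot]; exact h a ha

theorem enat_criterion (n : ℕ) (A B : Fin n → Ideal ℕ∞) (hA : ∀ i, Subtractive (A i))
    (hB : ∀ i, Subtractive (B i)) : Subtractive (∑ i, A i * B i) := by
  by_cases h : ∃ i, A i * B i ≠ ⊥
  · obtain ⟨i, hi⟩ := h
    have h1 : A i = ⊤ := (enat_ideal _ (hA i)).resolve_left (fun h => hi (by rw [h, Ideal.bot_mul]))
    have h2 : B i = ⊤ := (enat_ideal _ (hB i)).resolve_left (fun h => hi (by rw [h, Ideal.mul_bot]))
    have h3 : ∑ i, A i * B i = ⊤ := by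
      rw [eq_top_iff]
      calc (⊤ : Ideal ℕ∞) = A i * B i := by rw [h1, h2, Ideal.mul_top]
        _ ≤ _ := Finset.single_le_sum (f := fun i => A i * B i) (fun _ _ => bot_le)
            (Finset.mem_univ i)
    rw [h3]
    exact fun _ _ _ _ => trivial
  · push Not at h
    rw [Finset.sum_eq_zero (fun i _ => h i)]
    intro x y hx hxy
    rw [Ideal.zero_eq_bot, Ideal.mem_bot] at *
    rwa [hx, zero_add] at hxy

/-- **Classification of the zerosumfree coefficient semirings.** (1) For a zerosumfree semiring `S₀`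
the equality `scl(I) scl(J) = scl(IJ)` holds for all ideals `I, J` of `S₀[X, Y, Z]` if and only if
there is `c ∈ S₀` with `1 + c = c` and every finite sum of products of two subtractive
ideals of `S₀` is subtractive. (2) It holds for the zerosumfree semiring `ℕ∞ = ℕ ∪ {∞}`. (3) It
fails for every zerosumfree semiring with cancellative addition. -/
theorem result :
    (∀ (S₀ : Type u) [CommSemiring S₀] [Nontrivial S₀], (∀ a b : S₀, a + b = 0 → a = 0 ∧ b = 0) →
      ((∀ I J : Ideal (MvPolynomial (Fin 3) S₀), scl I * scl J = scl (I * J)) ↔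
        (∃ c : S₀, 1 + c = c) ∧
        ∀ (n : ℕ) (A B : Fin n → Ideal S₀), (∀ i, Subtractive (A i)) → (∀ i, Subtractive (B i)) →
          Subtractive (∑ i, A i * B i))) ∧
    ((∀ a b : ℕ∞, a + b = 0 → a = 0 ∧ b = 0) ∧
      ∀ I J : Ideal (MvPolynomial (Fin 3) ℕ∞), scl I * scl J = scl (I * J)) ∧
    (∀ (S₀ : Type u) [CommSemiring S₀] [Nontrivial S₀], (∀ a b : S₀, a + b = 0 → a = 0 ∧ b = 0) →
      (∀ a b c : S₀, a + c = b + c → a = b) →
      ∃ I J : Ideal (MvPolynomial (Fin 3) S₀), scl I * scl J ≠ scl (I * J)) := by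
  have key : ∀ (S₀ : Type u) [CommSemiring S₀] [Nontrivial S₀],
      (∀ a b : S₀, a + b = 0 → a = 0 ∧ b = 0) →
      ((∀ I J : Ideal (MvPolynomial (Fin 3) S₀), scl I * scl J = scl (I * J)) ↔
        (∃ c : S₀, 1 + c = c) ∧
        ∀ (n : ℕ) (A B : Fin n → Ideal S₀), (∀ i, Subtractive (A i)) → (∀ i, Subtractive (B i)) →
          Subtractive (∑ i, A i * B i)) := by
    intro S₀ _ _ hz
    constructor
    · intro h
      exact ⟨exists_infinity hz h, criterion h⟩
    · rintro ⟨⟨c, hc⟩, h⟩
      exact of_criterion hc h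
  refine ⟨key, ⟨fun a b h => by simpa using h, of_criterion (c := ⊤) (add_top 1) enat_criterion⟩,
    fun S₀ _ _ hz hc => ?_⟩
  by_contra hcon
  push Not at hcon
  obtain ⟨⟨c, h⟩, -⟩ := (key S₀ hz).1 hcon
  exact one_ne_zero (hc 1 0 c (by rw [h, zero_add]))

end Pool.Agent.Results.MP_05a6d5_al.Classification
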